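import Pool.Agent.Helper771.BG.P_bg_main
import Pool.Agent.Helper771.BG.P_div_int
import Pool.Agent.Helper771.BG.P_div_thm
import Pool.Agent.Helper771.BG.P_conf_met
import Pool.Agent.Helper771.BG.Scale

open scoped BigOperators

namespace Pool.Agent.Results.MP_18eb12_gt.LaplacianRicciSquare

open BG

/-- Let `S = tS` be the natural scalar `Δ|Ric|²` and `V = tV` the natural covector `d|Ric|²`.
In dimension `6`:
(0) `S dv_g` is invariant under constant rescalings of the metric (`S` has weight `-6`);
(1) `S dv_g` is the divergence of the natural vector field `V♯`, for every smooth metric on `ℝ^6`;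
(2) the integral of `S dv_g` over the torus `T^6` is conformally invariant, and it is `0`;
(3) `S dv` is not of the form `c Q + L + G` with `c` constant, `Q` a natural form with the
    transformation law of the `Q`-curvature, `L` a local conformal invariant, and `G` a natural
    form having a local conformal primitive `F`; this fails already for metrics on the torus. -/
theorem result :
    (∀ g : (Fin 6 → ℝ) → Matrix (Fin 6) (Fin 6) ℝ, IsMet g → ∀ t : ℝ, 0 < t → ∀ x,
      tS.form (fun y => t • g y) x = tS.form g x) ∧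
    (∀ g : (Fin 6 → ℝ) → Matrix (Fin 6) (Fin 6) ℝ, IsMet g → ∀ x,
      tS.form g x = ∑ a, pd a (fun y => Real.sqrt (g y).det
        * ∑ b, (g y)⁻¹ a b * tV.val g (fun _ => b) y) x) ∧
    (∀ g : (Fin 6 → ℝ) → Matrix (Fin 6) (Fin 6) ℝ, IsMet g → Per g →
      ∀ ω : (Fin 6 → ℝ) → ℝ, ContDiff ℝ (⊤ : ℕ∞) ω → Per ω →
        tint (tS.form (conf ω g)) = tint (tS.form g) ∧ tint (tS.form g) = 0) ∧
    (∀ (c : ℝ) (Q L G F : TF 0), IsQ 6 Q → IsLCI 6 L → IsPrimitive 6 F G →
      ¬ ∀ g : (Fin 6 → ℝ) → Matrix (Fin 6) (Fin 6) ℝ, IsMet g → Per g → ∀ x,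
        tS.form g x = c * Q.form g x + L.form g x + G.form g x) :=
  ⟨fun _ hg t ht x => form_scale hg t ht x, fun _ hg x => div_thm hg x,
    fun _ hg hp ω hω hpω => ⟨(div_int (conf_met hg hω).1 ((conf_met hg hω).2.2 hp hpω)).trans
      (div_int hg hp).symm, div_int hg hp⟩,
    fun c Q L G F hQ hL hF h => bg_main c Q L G F hQ hL hF h⟩

end Pool.Agent.Results.MP_18eb12_gt.LaplacianRicciSquare
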